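import Pool.Agent.K7.H12.FI.Defs

/-!
# Project FI, job SL
-/

set_option autoImplicit false

namespace Pool.Agent.K7.H53.FI

open Pool.Agent.K7.H15.Irr Pool.Agent.K7.H12.FI

section basic

variable {X V : Type} [Finite X] [Finite V]

theorem mu_le_of_map (F : OrientedGraph X) (G G' : OrientedGraph V) (E E' : (X → V) → Prop)
    (g : (X → V) → (X → V)) (hg : Function.Injective g)
    (h : ∀ φ, φ ∈ homs F G E → g φ ∈ homs F G' E') : mu F G E ≤ mu F G' E' := by
  unfold mu
  apply div_le_div_of_nonneg_right _ (by positivity)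
  have h1 : (homs F G E).ncard = (g '' homs F G E).ncard :=
    (Set.ncard_image_of_injective _ hg).symm
  rw [h1]
  exact_mod_cast Set.ncard_le_ncard (by rintro _ ⟨φ, hφ, rfl⟩; exact h φ hφ) (Set.toFinite _)

theorem mu_le_of_subset (F : OrientedGraph X) (G G' : OrientedGraph V) (E E' : (X → V) → Prop)
    (h : ∀ φ, Function.Injective φ → IsHom F G φ → E φ → IsHom F G' φ ∧ E' φ) :
    mu F G E ≤ mu F G' E' := by
  apply mu_le_of_map F G G' E E' id Function.injective_id
  rintro φ ⟨h1, h2, h3⟩
  exact ⟨h1, (h φ h1 h2 h3).1, (h φ h1 h2 h3).2⟩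

theorem mu_le_add (F : OrientedGraph X) (G : OrientedGraph V) (E Q : (X → V) → Prop) :
    mu F G E ≤ mu F G (fun φ => E φ ∧ Q φ) + mu F G (fun φ => E φ ∧ ¬ Q φ) := by
  unfold mu
  rw [← add_div]
  apply div_le_div_of_nonneg_right _ (by positivity)
  have h : homs F G E ⊆ homs F G (fun φ => E φ ∧ Q φ) ∪ homs F G (fun φ => E φ ∧ ¬ Q φ) := by
    rintro φ ⟨h1, h2, h3⟩
    by_cases hq : Q φ
    · exact Or.inl ⟨h1, h2, h3, hq⟩
    · exact Or.inr ⟨h1, h2, h3, hq⟩
  exact_mod_cast (Set.ncard_le_ncard h (Set.toFinite _)).trans (Set.ncard_union_le _ _)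

theorem add_le_mu (F : OrientedGraph X) (G : OrientedGraph V) (E Q : (X → V) → Prop) :
    mu F G (fun φ => E φ ∧ Q φ) + mu F G (fun φ => E φ ∧ ¬ Q φ) ≤ mu F G E := by
  unfold mu
  rw [← add_div]
  apply div_le_div_of_nonneg_right _ (by positivity)
  have hd : Disjoint (homs F G (fun φ => E φ ∧ Q φ)) (homs F G (fun φ => E φ ∧ ¬ Q φ)) := by
    rw [Set.disjoint_left]
    rintro φ ⟨_, _, _, h3⟩ ⟨_, _, _, h4⟩
    exact h4 h3
  have h : homs F G (fun φ => E φ ∧ Q φ) ∪ homs F G (fun φ => E φ ∧ ¬ Q φ) ⊆ homs F G E := by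
    rintro φ (⟨h1, h2, h3, _⟩ | ⟨h1, h2, h3, _⟩)
    · exact ⟨h1, h2, h3⟩
    · exact ⟨h1, h2, h3⟩
  have h5 := Set.ncard_le_ncard h (Set.toFinite _)
  rw [Set.ncard_union_eq hd (Set.toFinite _) (Set.toFinite _)] at h5
  exact_mod_cast h5

end basic

section graph

variable {X V : Type} {H : OrientedGraph X} {p : V → X} {G : OrientedGraph V}

theorem Hirr (H : OrientedGraph X) (a : X) : ¬ H.Arc a a := fun h => H.asymm a a h h

theorem over_upd (s : V) (P : Set V) : Over H p (upd H p G s P) := fun _ _ h => h.1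

theorem adj_upd (hG : Over H p G) {s : V} {P : Set V} {a b : V} (ha : a ≠ s) (hb : b ≠ s) :
    (upd H p G s P).underlying.Adj a b ↔ G.underlying.Adj a b := by
  constructor
  · rintro (h | h)
    · rcases h.2 with h | h | h
      · exact Or.inl h.2.2
      · exact absurd h.1 ha
      · exact absurd h.1 hb
    · rcases h.2 with h | h | h
      · exact Or.inr h.2.2
      · exact absurd h.1 hb
      · exact absurd h.1 ha
  · rintro (h | h)
    · exact Or.inl ⟨hG _ _ h, Or.inl ⟨ha, hb, h⟩⟩
    · exact Or.inr ⟨hG _ _ h, Or.inl ⟨hb, ha, h⟩⟩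

theorem adj_upd_s {s : V} {P : Set V} {a : V} (ha : a ≠ s) :
    (upd H p G s P).underlying.Adj a s ↔ (H.Arc (p a) (p s) ∨ H.Arc (p s) (p a)) ∧ a ∈ P := by
  constructor
  · rintro (h | h)
    · rcases h.2 with h' | h' | h'
      · exact absurd rfl h'.2.1
      · exact absurd h'.1 ha
      · exact ⟨Or.inl h.1, h'.2⟩
    · rcases h.2 with h' | h' | h'
      · exact absurd rfl h'.1
      · exact ⟨Or.inr h.1, h'.2⟩
      · exact absurd h'.1 ha
  · rintro ⟨h | h, hP⟩
    · exact Or.inl ⟨h, Or.inr (Or.inr ⟨rfl, hP⟩)⟩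
    · exact Or.inr ⟨h, Or.inr (Or.inl ⟨rfl, hP⟩)⟩

/-- `G`-arcs from adjacency and the direction in `H` -/
theorem arc_of_adj (hG : Over H p G) {a b : V} (h : G.underlying.Adj a b) (hH : H.Arc (p a) (p b)) :
    G.Arc a b := by
  rcases h with h | h
  · exact h
  · exact absurd (hG _ _ h) (H.asymm _ _ hH)

theorem not_adj_same (hG : Over H p G) {a b : V} (h : p a = p b) : ¬ G.underlying.Adj a b := by
  rintro (h' | h')
  · have := hG _ _ h'
    rw [h] at this
    exact Hirr H _ this
  · have := hG _ _ h'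
    rw [h] at this
    exact Hirr H _ this

end graph

section main

variable {X V : Type} [Finite X] [Finite V] {F H : OrientedGraph X} {p : V → X}
  {G : OrientedGraph V}

/-- step (i): the copies through `z` and `z'` -/
theorem step_in [Nonempty V] (hUB : StUB) (hG : Over H p G) {v v' z z' : V} (hzz : z ≠ z')
    (hpv : p v = p v') (hpz : p z = p z') (hvz : p v ≠ p z) {P : Set V} (hzP : z ∉ P)
    (hzP' : z' ∉ P) :
    mu F (upd H p G v (insert z' P)) (fun φ => (E1 v v' φ ∧ Uses F v z' φ) ∧ z ∈ Set.range φ) ≤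
      mu F (upd H p G v (insert z P)) (fun φ => (E1 v v' φ ∧ Uses F v z φ) ∧ z' ∈ Set.range φ) +
        ((sd G z z').ncard : ℝ) * err X V 4 := by
  classical
  have hvz1 : v ≠ z := fun h => hvz (by rw [h])
  have hvz2 : v ≠ z' := fun h => hvz (by rw [h, hpz])
  have hv'z1 : v' ≠ z := fun h => hvz (by rw [hpv, h])
  have hv'z2 : v' ≠ z' := fun h => hvz (by rw [hpv, h, hpz])
  set A : Finset V := {v, z, z'} with hA
  have hAc : A.card = 3 := by
    rw [hA, Finset.card_insert_of_notMem, Finset.card_insert_of_notMem, Finset.card_singleton]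
    · simpa using hzz
    · simp [hvz1, hvz2]
  have h1 := mu_le_add F (upd H p G v (insert z' P))
    (fun φ => (E1 v v' φ ∧ Uses F v z' φ) ∧ z ∈ Set.range φ)
    (fun φ => ∃ c ∈ sd G z z', c ∉ A ∧ c ∈ Set.range φ)
  have h2 := (hUB X V F (upd H p G v (insert z' P))
    (fun φ => ((E1 v v' φ ∧ Uses F v z' φ) ∧ z ∈ Set.range φ) ∧
      ∃ c ∈ sd G z z', c ∉ A ∧ c ∈ Set.range φ) A).2 (sd G z z') (by
      rintro φ _ ⟨⟨⟨hE, ⟨x, y, _, hx, hy⟩⟩, hz⟩, hc⟩
      refine ⟨?_, hc⟩
      intro a ha
      rw [hA] at ha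
      simp only [Finset.mem_insert, Finset.mem_singleton] at ha
      rcases ha with rfl | rfl | rfl
      · exact hE.1
      · exact hz
      · exact ⟨y, hy⟩)
  rw [hAc] at h2
  have h3 : mu F (upd H p G v (insert z' P))
      (fun φ => ((E1 v v' φ ∧ Uses F v z' φ) ∧ z ∈ Set.range φ) ∧
        ¬ ∃ c ∈ sd G z z', c ∉ A ∧ c ∈ Set.range φ) ≤
      mu F (upd H p G v (insert z P))
        (fun φ => (E1 v v' φ ∧ Uses F v z φ) ∧ z' ∈ Set.range φ) := by
    set τ : Equiv.Perm V := Equiv.swap z z' with hτ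
    have τv : τ v = v := Equiv.swap_apply_of_ne_of_ne hvz1 hvz2
    have τv' : τ v' = v' := Equiv.swap_apply_of_ne_of_ne hv'z1 hv'z2
    have τz : τ z = z' := Equiv.swap_apply_left _ _
    have τz' : τ z' = z := Equiv.swap_apply_right _ _
    have τo : ∀ c, c ≠ z → c ≠ z' → τ c = c := fun c h1 h2 =>
      Equiv.swap_apply_of_ne_of_ne h1 h2
    have pτ : ∀ c, p (τ c) = p c := by
      intro c
      by_cases hc : c = z
      · rw [hc, τz, hpz]
      by_cases hc' : c = z'
      · rw [hc', τz', hpz]
      rw [τo c hc hc']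
    apply mu_le_of_map _ _ _ _ _ (fun φ => τ ∘ φ)
    · intro φ ψ h
      funext x
      exact τ.injective (congrFun h x)
    · rintro φ ⟨hinj, hhom, ⟨⟨⟨⟨xv, hxv⟩, hv'⟩, ⟨x, y, hxy, hx, hy⟩⟩, ⟨xz, hxz⟩⟩, hgood⟩
      refine ⟨τ.injective.comp hinj, ?_, ⟨⟨⟨xv, ?_⟩, ?_⟩, ⟨x, y, hxy, ?_, ?_⟩⟩, ⟨xz, ?_⟩⟩
      · intro a b hab
        have h := hhom a b hab
        have hH : H.Arc (p (τ (φ a))) (p (τ (φ b))) := by
          rw [pτ, pτ]; exact h.1
        show (upd H p G v (insert z P)).Arc (τ (φ a)) (τ (φ b))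
        refine ⟨hH, ?_⟩
        rcases h.2 with ⟨hav, hbv, hG1⟩ | ⟨hav, hbP⟩ | ⟨hbv, haP⟩
        · left
          have hav' : τ (φ a) ≠ v := fun hh => hav (τ.injective (hh.trans τv.symm))
          have hbv' : τ (φ b) ≠ v := fun hh => hbv (τ.injective (hh.trans τv.symm))
          refine ⟨hav', hbv', ?_⟩
          by_cases ha : φ a = z ∨ φ a = z'
          · -- then `φ b` is not `z`, `z'`
            have hpa : p (φ a) = p z := by
              rcases ha with h | h
              · rw [h]
              · rw [h, hpz]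
            have hbz : φ b ≠ z := by
              intro hh
              have h4 := h.1
              rw [hpa, hh] at h4
              exact Hirr H _ h4
            have hbz' : φ b ≠ z' := by
              intro hh
              have h4 := h.1
              rw [hpa, hh, hpz] at h4
              exact Hirr H _ h4
            rw [τo _ hbz hbz']
            have hnsd : φ b ∉ sd G z z' := by
              intro hh
              apply hgood
              refine ⟨φ b, hh, ?_, ⟨b, rfl⟩⟩
              rw [hA]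
              simp only [Finset.mem_insert, Finset.mem_singleton, not_or]
              exact ⟨hbv, hbz, hbz'⟩
            have hiff : G.underlying.Adj z (φ b) ↔ G.underlying.Adj z' (φ b) := by
              by_contra hh
              exact hnsd hh
            rw [τo _ hbz hbz', pτ] at hH
            rcases ha with h | h
            · rw [h, τz]
              rw [h] at hG1 hH
              exact arc_of_adj hG (hiff.1 (Or.inl hG1)) (by rw [← hpz]; exact hH)
            · rw [h, τz']
              rw [h] at hG1 hH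
              exact arc_of_adj hG (hiff.2 (Or.inl hG1)) (by rw [hpz]; exact hH)
          · rw [not_or] at ha
            rw [τo _ ha.1 ha.2]
            by_cases hb : φ b = z ∨ φ b = z'
            · have hnsd : φ a ∉ sd G z z' := by
                intro hh
                apply hgood
                refine ⟨φ a, hh, ?_, ⟨a, rfl⟩⟩
                rw [hA]
                simp only [Finset.mem_insert, Finset.mem_singleton, not_or]
                exact ⟨hav, ha.1, ha.2⟩
              have hiff : G.underlying.Adj z (φ a) ↔ G.underlying.Adj z' (φ a) := by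
                by_contra hh
                exact hnsd hh
              rw [τo _ ha.1 ha.2, pτ] at hH
              rcases hb with h | h
              · rw [h, τz]
                rw [h] at hG1 hH
                exact arc_of_adj hG (hiff.1 (Or.inr hG1)).symm (by rw [← hpz]; exact hH)
              · rw [h, τz']
                rw [h] at hG1 hH
                exact arc_of_adj hG (hiff.2 (Or.inr hG1)).symm (by rw [hpz]; exact hH)
            · rw [not_or] at hb
              rw [τo _ hb.1 hb.2]
              exact hG1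
        · right; left
          refine ⟨by rw [hav, τv], ?_⟩
          rcases hbP with hb | hb
          · rw [hb, τz']
            exact Set.mem_insert _ _
          · rw [τo _ (fun h => hzP (h ▸ hb)) (fun h => hzP' (h ▸ hb))]
            exact Set.mem_insert_of_mem _ hb
        · right; right
          refine ⟨by rw [hbv, τv], ?_⟩
          rcases haP with hb | hb
          · rw [hb, τz']
            exact Set.mem_insert _ _
          · rw [τo _ (fun h => hzP (h ▸ hb)) (fun h => hzP' (h ▸ hb))]
            exact Set.mem_insert_of_mem _ hb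
      · show τ (φ xv) = v
        rw [hxv, τv]
      · rintro ⟨w, hw⟩
        exact hv' ⟨w, τ.injective (hw.trans τv'.symm)⟩
      · show τ (φ x) = v
        rw [hx, τv]
      · show τ (φ y) = z
        rw [hy, τz']
      · show τ (φ xz) = z'
        rw [hxz, τz]
  linarith

/-- step (ii): the copies through `z'` and not `z` -/
theorem step_out (hG : Over H p G) {v v' z z' : V} (hzz : z ≠ z')
    (hpv : p v = p v') (hpz : p z = p z') (hvz : p v ≠ p z) {P : Set V} :
    mu F (upd H p G v (insert z' P)) (fun φ => (E1 v v' φ ∧ Uses F v z' φ) ∧ ¬ z ∈ Set.range φ) ≤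
      mu F (upd H p (upd H p G v (insert z P)) z (insert v (nb G z')))
        (fun φ => E1 v v' φ ∧ z' ∉ Set.range φ ∧ Uses F v z φ) := by
  classical
  have hvz1 : v ≠ z := fun h => hvz (by rw [h])
  have hvz2 : v ≠ z' := fun h => hvz (by rw [h, hpz])
  have hv'z1 : v' ≠ z := fun h => hvz (by rw [hpv, h])
  have hv'z2 : v' ≠ z' := fun h => hvz (by rw [hpv, h, hpz])
  set τ : Equiv.Perm V := Equiv.swap z z' with hτ
  have τv : τ v = v := Equiv.swap_apply_of_ne_of_ne hvz1 hvz2
  have τv' : τ v' = v' := Equiv.swap_apply_of_ne_of_ne hv'z1 hv'z2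
  have τz : τ z = z' := Equiv.swap_apply_left _ _
  have τz' : τ z' = z := Equiv.swap_apply_right _ _
  have τo : ∀ c, c ≠ z → c ≠ z' → τ c = c := fun c h1 h2 =>
    Equiv.swap_apply_of_ne_of_ne h1 h2
  have pτ : ∀ c, p (τ c) = p c := by
    intro c
    by_cases hc : c = z
    · rw [hc, τz, hpz]
    by_cases hc' : c = z'
    · rw [hc', τz', hpz]
    rw [τo c hc hc']
  apply mu_le_of_map _ _ _ _ _ (fun φ => τ ∘ φ)
  · intro φ ψ h
    funext x
    exact τ.injective (congrFun h x)
  · rintro φ ⟨hinj, hhom, ⟨⟨⟨⟨xv, hxv⟩, hv'⟩, ⟨x, y, hxy, hx, hy⟩⟩, hz⟩⟩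
    have hnz : ∀ w, φ w ≠ z := fun w hw => hz ⟨w, hw⟩
    refine ⟨τ.injective.comp hinj, ?_, ⟨⟨xv, ?_⟩, ?_⟩, ?_, ⟨x, y, hxy, ?_, ?_⟩⟩
    · intro a b hab
      have h := hhom a b hab
      have hH : H.Arc (p (τ (φ a))) (p (τ (φ b))) := by
        rw [pτ, pτ]; exact h.1
      show (upd H p (upd H p G v (insert z P)) z (insert v (nb G z'))).Arc (τ (φ a)) (τ (φ b))
      refine ⟨hH, ?_⟩
      by_cases ha : φ a = z'
      · have hbz' : φ b ≠ z' := by
          intro hh
          have h4 := h.1
          rw [ha, hh] at h4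
          exact Hirr H _ h4
        right; left
        refine ⟨by rw [ha, τz'], ?_⟩
        rw [τo _ (hnz b) hbz']
        rcases h.2 with ⟨hav, hbv, hG1⟩ | ⟨hav, hbP⟩ | ⟨hbv, haP⟩
        · right
          rw [ha] at hG1
          exact Or.inl hG1
        · exact absurd (hav.symm.trans ha) hvz2
        · left; exact hbv
      · by_cases hb : φ b = z'
        · right; right
          refine ⟨by rw [hb, τz'], ?_⟩
          rw [τo _ (hnz a) ha]
          rcases h.2 with ⟨hav, hbv, hG1⟩ | ⟨hav, hbP⟩ | ⟨hbv, haP⟩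
          · right
            rw [hb] at hG1
            exact Or.inr hG1
          · left; exact hav
          · exact absurd (hbv.symm.trans hb) hvz2
        · rw [τo _ (hnz a) ha, τo _ (hnz b) hb]
          left
          refine ⟨hnz a, hnz b, h.1, ?_⟩
          rcases h.2 with h5 | ⟨hav, hbP⟩ | ⟨hbv, haP⟩
          · exact Or.inl h5
          · right; left
            refine ⟨hav, ?_⟩
            rcases hbP with h6 | h6
            · exact absurd h6 hb
            · exact Set.mem_insert_of_mem _ h6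
          · right; right
            refine ⟨hbv, ?_⟩
            rcases haP with h6 | h6
            · exact absurd h6 ha
            · exact Set.mem_insert_of_mem _ h6
    · show τ (φ xv) = v
      rw [hxv, τv]
    · rintro ⟨w, hw⟩
      exact hv' ⟨w, τ.injective (hw.trans τv'.symm)⟩
    · rintro ⟨w, hw⟩
      exact hz ⟨w, τ.injective (hw.trans τz.symm)⟩
    · show τ (φ x) = v
      rw [hx, τv]
    · show τ (φ y) = z
      rw [hy, τz']

/-- a vertex outside all copies can be removed from the new neighbourhood -/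
theorem drop (G : OrientedGraph V) (s w : V) (Q Q' : Set V) (E : (X → V) → Prop)
    (hE : ∀ φ, E φ → w ∉ Set.range φ) (hQ : ∀ c, c ∈ Q → c ≠ w → c ∈ Q') :
    mu F (upd H p G s Q) E ≤ mu F (upd H p G s Q') E := by
  apply mu_le_of_subset
  intro φ _ hh he
  refine ⟨?_, he⟩
  intro a b hab
  have h := hh a b hab
  have hna : φ a ≠ w := fun h' => hE φ he ⟨a, h'⟩
  have hnb : φ b ≠ w := fun h' => hE φ he ⟨b, h'⟩
  refine ⟨h.1, ?_⟩
  rcases h.2 with h1 | ⟨h1, h2⟩ | ⟨h1, h2⟩
  · exact Or.inl h1
  · exact Or.inr (Or.inl ⟨h1, hQ _ h2 hnb⟩)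
  · exact Or.inr (Or.inr ⟨h1, hQ _ h2 hna⟩)

/-- with (at most) the old neighbourhood of `z` -/
theorem back (hG : Over H p G) {v v' z z' : V} (hvz : p v ≠ p z) {P : Set V}
    (Q : Set V) (hQ : ∀ c, c ∈ Q → c ≠ v → c ≠ v' → c ∈ nb G z) :
    mu F (upd H p (upd H p G v (insert z P)) z Q)
        (fun φ => E1 v v' φ ∧ z' ∉ Set.range φ ∧ Uses F v z φ) ≤
      mu F (upd H p G v (insert z P))
        (fun φ => (E1 v v' φ ∧ Uses F v z φ) ∧ ¬ z' ∈ Set.range φ) := by
  have hvz1 : v ≠ z := fun h => hvz (by rw [h])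
  apply mu_le_of_subset
  rintro φ _ hh ⟨he, hz', hu⟩
  refine ⟨?_, ⟨he, hu⟩, hz'⟩
  intro a b hab
  have h := hh a b hab
  have hna : φ a ≠ v' := fun h' => he.2 ⟨a, h'⟩
  have hnb : φ b ≠ v' := fun h' => he.2 ⟨b, h'⟩
  rcases h.2 with h1 | ⟨h1, h2⟩ | ⟨h1, h2⟩
  · exact h1.2.2
  · refine ⟨h.1, ?_⟩
    by_cases hb : φ b = v
    · right; right
      refine ⟨hb, ?_⟩
      rw [h1]; exact Set.mem_insert _ _
    · left
      have hav : φ a ≠ v := by rw [h1]; exact hvz1.symm
      refine ⟨hav, hb, ?_⟩
      apply arc_of_adj hG _ h.1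
      rw [h1]
      exact hQ _ h2 hb hnb
  · refine ⟨h.1, ?_⟩
    by_cases hb : φ a = v
    · right; left
      refine ⟨hb, ?_⟩
      rw [h1]; exact Set.mem_insert _ _
    · left
      have hav : φ b ≠ v := by rw [h1]; exact hvz1.symm
      refine ⟨hb, hav, ?_⟩
      apply arc_of_adj hG _ h.1
      rw [h1]
      exact (hQ _ h2 hb hna : G.underlying.Adj z (φ a)).symm

theorem err_nonneg (X V : Type) (q : ℕ) : 0 ≤ err X V q := by
  unfold err; positivity

end main

theorem sl (hUB : StUB) (hCh : StChain) (hSp : StSplit) : StSL := by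
  intro X V _ _ _ F H p G hG v v' z z' hvv hzz hpv hpz hvz P hzP hzP' ι I f f' U hI hf hf' hff hN hN'
  classical
  have hvz1 : v ≠ z := fun h => hvz (by rw [h])
  have hvz2 : v ≠ z' := fun h => hvz (by rw [h, hpz])
  have hv'z1 : v' ≠ z := fun h => hvz (by rw [hpv, h])
  have hv'z2 : v' ≠ z' := fun h => hvz (by rw [hpv, h, hpz])
  set G1 := upd H p G v (insert z P) with hG1
  set E2 : (X → V) → Prop := fun φ => E1 v v' φ ∧ z' ∉ Set.range φ ∧ Uses F v z φ with hE2
  -- splitting off the edge to `z`, `z'`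
  have s1 := (hSp X V F H p G v (E1 v v')).2.1 P z hzP hvz1.symm
  have s2 := (hSp X V F H p G v (E1 v v')).2.1 P z' hzP' hvz2.symm
  have t1 := add_le_mu F G1 (fun φ => E1 v v' φ ∧ Uses F v z φ) (fun φ => z' ∈ Set.range φ)
  have t2 := mu_le_add F (upd H p G v (insert z' P)) (fun φ => E1 v v' φ ∧ Uses F v z' φ)
    (fun φ => z ∈ Set.range φ)
  have hin := step_in (F := F) hUB hG hzz hpv hpz hvz hzP hzP'
  have hout := step_out (F := F) (P := P) hG hzz hpv hpz hvz
  -- the chain
  set U' : Set V := insert v U with hU'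
  have hE2v' : ∀ φ, E2 φ → v' ∉ Set.range φ := fun φ h => h.1.2
  have c1 : mu F (upd H p G1 z (insert v (nb G z'))) E2 ≤ mu F (upd H p G1 z (U' ∪ f '' I)) E2 := by
    apply drop (H := H) (p := p) G1 z v' _ _ E2 hE2v'
    rintro c (hc | hc) hcv'
    · left; left; exact hc
    · by_cases hcv : c = v
      · left; left; exact hcv
      · rcases hN c hc hcv hcv' with h | h
        · left; right; exact h
        · right; exact h
  have hpI : ∀ i ∈ I, f i ≠ z ∧ f i ≠ z' ∧ f' i ≠ z ∧ f' i ≠ z' := by
    intro i hi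
    obtain ⟨_, _, _, _, _, _, h7, h8, _⟩ := hI i hi
    refine ⟨fun h => h7 (by rw [h]), fun h => h7 (by rw [h, hpz]), fun h => h7 (by rw [h8, h]),
      fun h => h7 (by rw [h8, h, hpz])⟩
  have c2 := hCh X V F H p G1 (over_upd v (insert z P)) z {v, z} E2 (by simp) (by
      rintro φ _ ⟨h1, h2, ⟨x, y, _, hx, hy⟩⟩ a ha
      simp only [Finset.mem_insert, Finset.mem_singleton] at ha
      rcases ha with rfl | rfl
      · exact h1.1
      · exact ⟨y, hy⟩) ι I f f' U' (by
      intro i hi
      obtain ⟨h1, h2, h3, h4, h5, h6, h7, h8, h9⟩ := hI i hi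
      obtain ⟨k1, k2, k3, k4⟩ := hpI i hi
      refine ⟨?_, ?_, ?_, ?_, h8, ?_, ?_⟩
      · rintro (h | h)
        · exact h3 h
        · exact h1 h
      · rintro (h | h)
        · exact h4 h
        · exact h2 h
      · simp only [Finset.mem_insert, Finset.mem_singleton, not_or]
        exact ⟨h3, k1⟩
      · simp only [Finset.mem_insert, Finset.mem_singleton, not_or]
        exact ⟨h4, k3⟩
      · intro a ha has
        simp only [Finset.mem_insert, Finset.mem_singleton] at ha
        rcases ha with rfl | rfl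
        · rw [SimpleGraph.adj_comm, SimpleGraph.adj_comm _ _ (f' i), hG1, adj_upd_s h3,
            adj_upd_s h4, h8]
          have : (f i ∈ insert z P ↔ f' i ∈ insert z P) := by
            rw [Set.mem_insert_iff, Set.mem_insert_iff]
            constructor
            · rintro (h | h)
              · exact absurd h k1
              · exact Or.inr (h9.1 h)
            · rintro (h | h)
              · exact absurd h k3
              · exact Or.inr (h9.2 h)
          rw [this]
        · exact absurd rfl has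
      · rintro φ ⟨⟨⟨xv, hxv⟩, hv'⟩, hz', ⟨x, y, hxy, hx, hy⟩⟩ τ hτ
        have τv : τ v = v := hτ v h3.symm h4.symm
        have τv' : τ v' = v' := hτ v' h5.symm h6.symm
        have τz : τ z = z := hτ z k1.symm k3.symm
        have τz' : τ z' = z' := hτ z' k2.symm k4.symm
        refine ⟨⟨⟨xv, ?_⟩, ?_⟩, ?_, ⟨x, y, hxy, ?_, ?_⟩⟩
        · show τ (φ xv) = v
          rw [hxv, τv]
        · rintro ⟨w, hw⟩
          exact hv' ⟨w, τ.injective (hw.trans τv'.symm)⟩
        · rintro ⟨w, hw⟩
          exact hz' ⟨w, τ.injective (hw.trans τz'.symm)⟩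
        · show τ (φ x) = v
          rw [hx, τv]
        · show τ (φ y) = z
          rw [hy, τz]) hf hf' hff
  have hcard : ({v, z} : Finset V).card + 2 = 4 := by
    rw [Finset.card_pair hvz1]
  rw [hcard] at c2
  have c3 : ∑ i ∈ I, ((sd G1 (f i) (f' i)).ncard : ℝ) * err X V 4 ≤
      (∑ i ∈ I, ((sd G (f i) (f' i)).ncard : ℝ)) * err X V 4 := by
    rw [Finset.sum_mul]
    apply Finset.sum_le_sum
    intro i hi
    obtain ⟨h1, h2, h3, h4, h5, h6, h7, h8, h9⟩ := hI i hi
    obtain ⟨k1, k2, k3, k4⟩ := hpI i hi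
    apply mul_le_mul_of_nonneg_right _ (err_nonneg X V 4)
    have : sd G1 (f i) (f' i) ⊆ sd G (f i) (f' i) := by
      intro c hc hh
      apply hc
      by_cases hcv : c = v
      · rw [hcv, hG1, adj_upd_s h3, adj_upd_s h4, h8]
        have : (f i ∈ insert z P ↔ f' i ∈ insert z P) := by
          rw [Set.mem_insert_iff, Set.mem_insert_iff]
          constructor
          · rintro (h | h)
            · exact absurd h k1
            · exact Or.inr (h9.1 h)
          · rintro (h | h)
            · exact absurd h k3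
            · exact Or.inr (h9.2 h)
        rw [this]
      · rw [hG1, adj_upd hG h3 hcv, adj_upd hG h4 hcv]
        exact hh
    exact_mod_cast Set.ncard_le_ncard this (Set.toFinite _)
  -- the end
  have key : mu F (upd H p G v (insert z' P)) (E1 v v') ≤
      mu F (upd H p G v P) (E1 v v') +
        mu F G1 (fun φ => (E1 v v' φ ∧ Uses F v z φ) ∧ z' ∈ Set.range φ) +
        mu F (upd H p G1 z (U' ∪ f' '' I)) E2 +
        (((sd G z z' : Set V).ncard : ℝ) + ∑ i ∈ I, ((sd G (f i) (f' i)).ncard : ℝ)) * err X V 4 := by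
    rw [add_mul]
    linarith
  have hQ1 : ∀ c, c ∈ U' ∪ f' '' I → c ≠ v → c ≠ v' → c ∈ nb G z := by
    rintro c ((h | h) | h) hcv hcv'
    · exact absurd h hcv
    · exact hN' c (Or.inl h) hcv hcv'
    · exact hN' c (Or.inr h) hcv hcv'
  refine ⟨?_, ?_⟩
  · have b1 := back (F := F) (z' := z') (P := P) hG hvz (U' ∪ f' '' I) hQ1
    linarith
  · intro c hcv hcv' hcz hcU
    have hcz1 : c ≠ z := by
      rintro rfl
      exact G.underlying.loopless.irrefl c hcz
    have hUeq : U' ∪ f' '' I = insert v (U ∪ f' '' I) := by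
      rw [hU', Set.insert_union]
    have b1 := back (F := F) (z' := z') (P := P) hG hvz (insert c (insert v (U ∪ f' '' I))) (by
      rintro d (h | h) hdv hdv'
      · rw [h]; exact hcz
      · rw [← hUeq] at h
        exact hQ1 d h hdv hdv')
    have b2 := (hSp X V F H p G1 z E2).2.1 (insert v (U ∪ f' '' I)) c (by
      rintro (h | h)
      · exact hcv h
      · exact hcU h) hcz1
    rw [hUeq] at key
    linarith

end Pool.Agent.K7.H53.FI
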