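import Pool.Agent.K7.H12.FI.Conc

/-!
# Project FI, job TW
-/

set_option autoImplicit false

namespace Pool.Agent.K7.H53.FI

open Pool.Agent.K7.H15.Irr Pool.Agent.K7.H12.FI

section basic

variable {X : Type} {F : OrientedGraph X} {P : Par X} {h : IsHom F F P.ρ}

theorem mis_symm (a b : Lab) (hm : Mis P a b) : Mis P b a := by
  cases a <;> cases b <;> simp only [Mis] at hm ⊢ <;> first | exact hm | exact hm.symm | omega

theorem mem_nb (v y : Vt P) : y ∈ nb (gph F P h) v ↔
    (img F P.ρ h).underlying.Adj (cl v) (cl y) ∧ ¬ Mis P (lab v) (lab y) := by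
  constructor
  · rintro (h1 | h1)
    · exact ⟨Or.inl h1.1, h1.2⟩
    · exact ⟨Or.inr h1.1, fun hm => h1.2 (mis_symm _ _ hm)⟩
  · rintro ⟨h1 | h1, h2⟩
    · exact Or.inl ⟨h1, h2⟩
    · exact Or.inr ⟨h1, fun hm => h2 (mis_symm _ _ hm)⟩

theorem over_gph : Over (img F P.ρ h) cl (gph F P h) := fun _ _ h1 => h1.1

theorem Ok_mono {A A' a B : ℕ} {x : X → ℕ} (hA : A' ≤ A) (hok : Ok F P h A a B x) :
    Ok F P h A' a B x where
  hx := hok.hx
  hr := hok.hr
  ratio := hok.ratio
  Rup := hok.Rup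
  Rex := hok.Rex
  blk_lt := hok.blk_lt
  blk_mono := hok.blk_mono
  blk_card := hok.blk_card
  even := hok.even
  ha := hA.trans hok.ha
  hb := (Nat.mul_le_mul_right _ hA).trans hok.hb
  hB := (Nat.mul_le_mul_right _ (Nat.mul_le_mul_right _ hA)).trans hok.hB

end basic

theorem ncard_le_of_injOn {α β : Type} [Finite β] (s : Set α) (f : α → β) (hf : Set.InjOn f s) :
    s.ncard ≤ Nat.card β := by
  rw [← Set.ncard_image_of_injOn hf]
  exact Set.ncard_le_card _

theorem tw (hD : StDiff) (hS : StSplit) (hL : StLB1) (hZ : StSize) : StTW := by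
  intro X _ F hF hX
  obtain ⟨c, hc, A1, hA1⟩ := hL X F hF hX
  obtain ⟨C, hC, A2, hA2⟩ := hZ X F hF hX
  set K : ℕ := Nat.card X * xb X with hK
  refine ⟨A1 + A2 + (⌈C / c⌉₊ + ⌈(2 * K + 1) / c⌉₊ + 1), ?_⟩
  intro P h a B x hok g cc l j
  classical
  obtain ⟨hm0, hn0, hbB, hblk, hn1, hn2, hR, -, -, -, -, hmiss⟩ :=
    hA2 P h a B x (Ok_mono (by omega) hok)
  have hlb := hA1 P h a B x (Ok_mono (by omega) hok)
  have : Finite X := inferInstance
  haveI : Finite (Cls P) := inferInstance
  haveI : Finite (Vt P) := by infer_instance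
  haveI : Nonempty (Vt P) := (Nat.card_pos_iff.1 hn0).1
  set n : ℝ := (Nat.card (Vt P) : ℝ) with hn
  have hnpos : 0 < n := by rw [hn]; exact_mod_cast hn0
  -- sizes of the parameters
  have ha1 : 1 ≤ a := by have := hok.ha; omega
  have hb1 : 1 ≤ P.b := by
    have := hok.hb
    have h1 : 1 ≤ (A1 + A2 + (⌈C / c⌉₊ + ⌈(2 * K + 1) / c⌉₊ + 1)) * a ^ 2 := by
      apply Nat.one_le_iff_ne_zero.2
      positivity
    omega
  have hAb : C / c ≤ P.b := by
    have h1 := hok.hb
    have h2 : ⌈C / c⌉₊ ≤ P.b := by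
      calc ⌈C / c⌉₊ ≤ A1 + A2 + (⌈C / c⌉₊ + ⌈(2 * K + 1) / c⌉₊ + 1) := by omega
        _ = (A1 + A2 + (⌈C / c⌉₊ + ⌈(2 * K + 1) / c⌉₊ + 1)) * 1 := by ring
        _ ≤ (A1 + A2 + (⌈C / c⌉₊ + ⌈(2 * K + 1) / c⌉₊ + 1)) * a ^ 2 :=
          Nat.mul_le_mul_left _ (Nat.one_le_pow _ _ ha1)
        _ ≤ P.b := h1
    exact (Nat.le_ceil _).trans (by exact_mod_cast h2)
  have hcB : ((2 * K + 1 : ℕ) : ℝ) * (a * P.b) ≤ c * B := by
    have h1 := hok.hB
    have h2 : ⌈(2 * K + 1) / c⌉₊ * (a * P.b) ≤ B := by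
      refine le_trans ?_ h1
      rw [mul_assoc]
      apply Nat.mul_le_mul_right
      omega
    have h3 : ((2 * K + 1 : ℕ) : ℝ) / c ≤ (⌈(2 * (K : ℝ) + 1) / c⌉₊ : ℝ) := by
      have := Nat.le_ceil ((2 * (K : ℝ) + 1) / c)
      push_cast
      exact this
    have h4 : (⌈(2 * (K : ℝ) + 1) / c⌉₊ : ℝ) * (a * P.b) ≤ B := by exact_mod_cast h2
    have h5 : ((2 * K + 1 : ℕ) : ℝ) / c * (a * P.b) ≤ B :=
      (mul_le_mul_of_nonneg_right h3 (by positivity)).trans h4
    calc ((2 * K + 1 : ℕ) : ℝ) * (a * P.b) = c * (((2 * K + 1 : ℕ) : ℝ) / c * (a * P.b)) := by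
          field_simp
      _ ≤ c * B := mul_le_mul_of_nonneg_left h5 hc.le
  have hfew : C * (a * B) ≤ c * n := by
    have h1 : ((a * P.m : ℕ) : ℝ) ≤ n := hn2
    have h2 : ((P.b * B : ℕ) : ℝ) ≤ P.m := by exact_mod_cast hbB
    have h3 : C ≤ c * P.b := by
      rw [div_le_iff₀ hc] at hAb
      linarith
    calc C * (a * B) ≤ (c * P.b) * (a * B) := mul_le_mul_of_nonneg_right h3 (by positivity)
      _ = c * (a * ((P.b * B : ℕ) : ℝ)) := by push_cast; ring
      _ ≤ c * (a * P.m) := by
          apply mul_le_mul_of_nonneg_left _ hc.le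
          exact mul_le_mul_of_nonneg_left h2 (by positivity)
      _ ≤ c * n := by
          apply mul_le_mul_of_nonneg_left _ hc.le
          exact_mod_cast h1
  -- the vertices
  set G := gph F P h with hG
  set v : Vt P := tt g cc l with hv
  set v' : Vt P := ww g j with hv'
  have hvv : v ≠ v' := by
    rw [hv, hv']
    intro hh
    unfold tt ww at hh
    simp at hh
  have hcl : cl v = cl v' := rfl
  have hdiff := hD X (Vt P) F (img F P.ρ h) cl G over_gph v v' hvv hcl
  set E := E1 (X := X) v v' with hE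
  have hsp := hS X (Vt P) F (img F P.ρ h) cl G v E
  -- many missed bulk vertices
  obtain ⟨g', hadj, hr'⟩ := hok.Rex g
  have hl' : (l : ℕ) < P.r g'.1 := by rw [hr']; exact l.2
  set M : Set (Vt P) := {y | ∃ j' : Fin P.m, P.blk j' = cc ∧ y = bk g' ⟨l, hl'⟩ j'} with hM
  have hMcard : B ≤ M.ncard := by
    have h1 := hok.blk_card cc cc.2
    have h2 : ({j : ℕ | j < P.m ∧ P.blk j = cc} : Set ℕ).ncard ≤ M.ncard := by
      apply Set.ncard_le_ncard_of_injOn
        (fun k => if hk : k < P.m then bk g' ⟨l, hl'⟩ ⟨k, hk⟩ else v) _ _ (Set.toFinite _)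
      · rintro k ⟨hk, hk'⟩
        simp only [hk, dif_pos]
        exact ⟨⟨k, hk⟩, hk', rfl⟩
      · rintro k ⟨hk, _⟩ k' ⟨hk', _⟩ heq
        simp only [hk, hk', dif_pos] at heq
        unfold bk at heq
        simpa using heq
    omega
  -- the gain
  have hadjv : ∀ u ∈ M, (img F P.ρ h).underlying.Adj (cl v) (cl u) := by
    rintro u ⟨j', _, rfl⟩
    exact hadj
  have hMnb : ∀ u ∈ M, u ∉ nb G v := by
    rintro u ⟨j', hj', rfl⟩ hu
    rw [hG, mem_nb] at hu
    apply hu.2
    show Mis P (Lab.t cc l) (Lab.bulk l j')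
    exact ⟨hj', le_rfl⟩
  have hMv : ∀ u ∈ M, u ≠ v := by
    rintro u hu rfl
    have := hadjv v hu
    exact (img F P.ρ h).underlying.loopless.irrefl _ this
  have gain : ∀ s : Finset (Vt P), (∀ u ∈ s, u ∈ M) →
      mu F (upd (img F P.ρ h) cl G v (nb G v)) E + s.card * (c * err X (Vt P) 2) ≤
        mu F (upd (img F P.ρ h) cl G v (nb G v ∪ s)) E := by
    intro s
    induction s using Finset.induction_on with
    | empty => simp
    | insert u s hus ih =>
      intro hsub
      have ih' := ih (fun y hy => hsub y (Finset.mem_insert_of_mem hy))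
      have hu := hsub u (Finset.mem_insert_self _ _)
      have h1 := hsp.2.1 (nb G v ∪ s) u (by
        rintro (h2 | h2)
        · exact hMnb u hu h2
        · exact hus (by exact_mod_cast h2)) (hMv u hu)
      have hset : (nb G v ∪ ((insert u s : Finset (Vt P)) : Set (Vt P))) =
          insert u (nb G v ∪ s) := by
        rw [Finset.coe_insert, Set.union_insert]
      have h2 := hlb v v' u (insert u (nb G v ∪ s)) hvv hcl (hadjv u hu) (Set.mem_insert _ _) (by
        refine le_trans ?_ hfew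
        refine le_trans ?_ (hmiss v)
        have : ({y : Vt P | (∃ g i j, y = bk g i j) ∧
            (img F P.ρ h).underlying.Adj (cl v) (cl y) ∧ y ∉ insert u (nb G v ∪ s)}) ⊆
            {u | (img F P.ρ h).underlying.Adj (cl v) (cl u) ∧ (∃ g i j, u = bk g i j) ∧
              u ∉ nb (gph F P h) v} := by
          rintro y ⟨h3, h4, h5⟩
          refine ⟨h4, h3, fun h6 => h5 ?_⟩
          exact Set.mem_insert_of_mem _ (Or.inl h6)
        exact_mod_cast Set.ncard_le_ncard this (Set.toFinite _))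
      rw [hset, h1, Finset.card_insert_of_notMem hus]
      push_cast
      linarith
  have hfinM : M.Finite := Set.toFinite _
  have g1 := gain hfinM.toFinset (fun u hu => by simpa using hu)
  rw [← Set.ncard_eq_toFinset_card M hfinM, Set.Finite.coe_toFinset] at g1
  -- the common upper set
  set S0 : Set (Vt P) := {y | (img F P.ρ h).underlying.Adj (cl v) (cl y) ∧ ∀ j', lab y ≠ .w j'}
    with hS0
  have hsub1 : nb G v ∪ M ⊆ S0 ∪ nb G v' := by
    rintro y (hy | hy)
    · left
      rw [hG, mem_nb] at hy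
      refine ⟨hy.1, fun j' hj' => hy.2 ?_⟩
      rw [hj']
      exact trivial
    · left
      refine ⟨hadjv y hy, ?_⟩
      obtain ⟨j', _, rfl⟩ := hy
      intro j'' hh
      cases hh
  have g2 := hsp.1 _ _ hsub1
  have g3 := hsp.2.2 (fun φ hφ => hφ.1) (nb G v') (S0 ∪ nb G v') Set.subset_union_right
  -- the number of the vertices missed by `w`
  have hcount : (((S0 ∪ nb G v') \ nb G v').ncard : ℝ) ≤ 2 * K * (a * P.b) := by
    have hsub : (S0 ∪ nb G v') \ nb G v' ⊆
        {y | ∃ g' i, y = bk g' i j} ∪ {y | ∃ g' c' l', y = tt g' c' l'} := by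
      rintro y ⟨hy | hy, hy'⟩
      · have hmis : Mis P (lab v') (lab y) := by
          by_contra hcon
          apply hy'
          rw [hG, mem_nb]
          exact ⟨hy.1, hcon⟩
        obtain ⟨gy, y1⟩ := y
        rcases y1 with ⟨i', j'⟩ | ⟨c', l'⟩ | j'
        · left
          have : (j : ℕ) = j' := hmis.symm
          have hjj : j = j' := Fin.ext this
          exact ⟨gy, i', by rw [hjj]; rfl⟩
        · right
          exact ⟨gy, c', l', rfl⟩
        · exact absurd rfl (hy.2 j')
      · exact absurd hy hy'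
    have h1 : ({y : Vt P | ∃ g' i, y = bk g' i j} : Set (Vt P)).ncard ≤ K * a := by
      have hrr : ∀ g' : Cls P, P.r g'.1 ≤ xb X * a := by
        intro g'
        rw [hok.hr]
        exact Nat.mul_le_mul_right _ (hok.hx g').2
      have h2 : ({y : Vt P | ∃ g' i, y = bk g' i j} : Set (Vt P)).ncard ≤
          Nat.card (X × Fin (xb X * a)) := by
        have hpos : 0 < xb X * a := by
          have := hrr g'
          omega
        apply ncard_le_of_injOn _ (fun y : Vt P => (cl y, (match lab y with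
          | .bulk i _ => if hi : i < xb X * a then (⟨i, hi⟩ : Fin (xb X * a)) else ⟨0, hpos⟩
          | _ => ⟨0, hpos⟩)))
        rintro _ ⟨g1, i1, rfl⟩ _ ⟨g2, i2, rfl⟩ heq
        have e1 : g1.1 = g2.1 := congrArg Prod.fst heq
        have e1' : g1 = g2 := Subtype.ext e1
        subst e1'
        have e2 := congrArg Prod.snd heq
        have k1 : (i1 : ℕ) < xb X * a := lt_of_lt_of_le i1.2 (hrr g1)
        have k2 : (i2 : ℕ) < xb X * a := lt_of_lt_of_le i2.2 (hrr g1)
        simp only [lab, bk, k1, k2, dif_pos, Fin.mk.injEq] at e2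
        have e3 : i1 = i2 := Fin.ext e2
        rw [e3]
      rw [Nat.card_prod, Nat.card_eq_fintype_card (α := Fin (xb X * a)), Fintype.card_fin] at h2
      rw [hK]
      calc _ ≤ Nat.card X * (xb X * a) := h2
        _ = _ := by ring
    have h3 : ({y : Vt P | ∃ g' c' l', y = tt g' c' l'} : Set (Vt P)).ncard ≤ K * (a * P.b) := by
      have h4 : ({y : Vt P | ∃ g' c' l', y = tt g' c' l'} : Set (Vt P)).ncard ≤
          Nat.card (X × (Fin P.b × Fin (xb X * a))) := by
        have hpos : 0 < xb X * a := by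
          have := hR g
          have := l.2
          omega
        apply ncard_le_of_injOn _ (fun y : Vt P => (cl y, (match lab y with
          | .t c' i => (if hc : c' < P.b then (⟨c', hc⟩ : Fin P.b) else ⟨0, hb1⟩,
              if hi : i < xb X * a then (⟨i, hi⟩ : Fin (xb X * a)) else ⟨0, hpos⟩)
          | _ => (⟨0, hb1⟩, ⟨0, hpos⟩))))
        rintro _ ⟨g1, c1, i1, rfl⟩ _ ⟨g2, c2, i2, rfl⟩ heq
        have e1 : g1.1 = g2.1 := congrArg Prod.fst heq
        have e1' : g1 = g2 := Subtype.ext e1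
        subst e1'
        have e2 := congrArg Prod.snd heq
        have k1 : (i1 : ℕ) < xb X * a := lt_of_lt_of_le i1.2 (hR g1)
        have k2 : (i2 : ℕ) < xb X * a := lt_of_lt_of_le i2.2 (hR g1)
        simp only [lab, tt, k1, k2, c1.2, c2.2, dif_pos, Fin.mk.injEq, Prod.mk.injEq] at e2
        have e3 : i1 = i2 := Fin.ext e2.2
        have e4 : c1 = c2 := Fin.ext e2.1
        rw [e3, e4]
      rw [Nat.card_prod, Nat.card_prod, Nat.card_eq_fintype_card (α := Fin (xb X * a)),
        Nat.card_eq_fintype_card (α := Fin P.b), Fintype.card_fin, Fintype.card_fin] at h4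
      rw [hK]
      calc _ ≤ Nat.card X * (P.b * (xb X * a)) := h4
        _ = _ := by ring
    have h5 := (Set.ncard_le_ncard hsub (Set.toFinite _)).trans (Set.ncard_union_le _ _)
    have h6 : K * a ≤ K * (a * P.b) := Nat.mul_le_mul_left _ (Nat.le_mul_of_pos_right _ hb1)
    have h7 : ((S0 ∪ nb G v') \ nb G v').ncard ≤ 2 * K * (a * P.b) := by
      calc _ ≤ K * a + K * (a * P.b) := h5.trans (Nat.add_le_add h1 h3)
        _ ≤ K * (a * P.b) + K * (a * P.b) := Nat.add_le_add_right h6 _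
        _ = _ := by ring
    exact_mod_cast h7
  have herr : 0 < err X (Vt P) 2 := by
    unfold err
    have : 0 < (Nat.card X : ℝ) := by
      have : 0 < Nat.card X := by omega
      exact_mod_cast this
    positivity
  have hB' : (B : ℝ) ≤ M.ncard := by exact_mod_cast hMcard
  have f1 : (B : ℝ) * (c * err X (Vt P) 2) ≤ M.ncard * (c * err X (Vt P) 2) :=
    mul_le_mul_of_nonneg_right hB' (by positivity)
  have f2 : (((S0 ∪ nb G v') \ nb G v').ncard : ℝ) * err X (Vt P) 2 ≤
      2 * K * (a * P.b) * err X (Vt P) 2 := mul_le_mul_of_nonneg_right hcount herr.le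
  have f3 : ((2 * K + 1 : ℕ) : ℝ) * (a * P.b) * err X (Vt P) 2 ≤ c * B * err X (Vt P) 2 :=
    mul_le_mul_of_nonneg_right hcB herr.le
  have f4 : 0 < (a : ℝ) * P.b * err X (Vt P) 2 := by
    have : 0 < (a : ℝ) := by exact_mod_cast ha1
    have : 0 < (P.b : ℝ) := by exact_mod_cast hb1
    positivity
  push_cast at f3
  nlinarith [g1, g2, g3, hdiff, f1, f2, f3, f4]

end Pool.Agent.K7.H53.FI
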